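import Pool.Agent.E8helper92.FS.Stm2

/-! Project FS, piece CTB: a countable irreducible subshift with dense minimal subsystems is
minimal. -/

set_option autoImplicit false

namespace Pool.Agent.E8helper33.FS

open Pool.Agent.Helper894.FS Pool.Agent.E8helper92.FS

/-- `M` is a minimal closed invariant set -/
def IsMin {A : Type} (M : Set (ℤ → A)) : Prop := IsSub M ∧ ∀ M' ⊆ M, IsSub M' → M' = M

/-- `Y` is not the union of two proper closed invariant subsets -/
def Irred {A : Type} (Y : Set (ℤ → A)) : Prop :=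
  ∀ Y₁ Y₂ : Set (ℤ → A), Cl Y₁ → E8helper92.FS.Inv Y₁ → Cl Y₂ → E8helper92.FS.Inv Y₂ → Y = Y₁ ∪ Y₂ → Y₁ = Y ∨ Y₂ = Y

/-- the minimal subsystems of `Y` are dense in `Y` -/
def DenseMin {A : Type} (Y : Set (ℤ → A)) : Prop :=
  ∀ Y' : Set (ℤ → A), Cl Y' → E8helper92.FS.Inv Y' → (∀ M ⊆ Y, IsMin M → M ⊆ Y') → Y ⊆ Y'

/-- a countable nonempty closed set has an isolated point -/
theorem isolated {A : Type} [Finite A] (Y : Set (ℤ → A)) (h0 : Y.Nonempty) (hc : Y.Countable)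
    (h1 : Cl Y) : ∃ z ∈ Y, ∃ V : Set (ℤ → A), Cl V ∧ z ∉ V ∧ ∀ x ∈ Y, x ∉ V → x = z := by
  letI : TopologicalSpace A := ⊥
  haveI : DiscreteTopology A := ⟨rfl⟩
  have hY : IsClosed Y := h1
  haveI : CompactSpace A := Finite.compactSpace
  haveI : CompactSpace Y := isCompact_iff_compactSpace.1 hY.isCompact
  haveI : Nonempty Y := h0.to_subtype
  haveI : Countable Y := hc.to_subtype
  obtain ⟨z, w, hw⟩ := nonempty_interior_of_iUnion_of_closed (X := Y) (ι := Y)
    (f := fun y => ({y} : Set Y)) (fun y => isClosed_singleton) (Set.iUnion_of_singleton Y)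
  have hzw : w = z := Set.mem_singleton_iff.1 (interior_subset hw)
  subst hzw
  have ho : IsOpen (interior ({w} : Set Y)) := isOpen_interior
  obtain ⟨U, hU, hUe⟩ := isOpen_induced_iff.1 ho
  refine ⟨w.1, w.2, Uᶜ, ?_, ?_, ?_⟩
  · show IsClosed Uᶜ
    exact hU.isClosed_compl
  · intro h
    apply h
    have : w ∈ Subtype.val ⁻¹' U := by rw [hUe]; exact hw
    exact this
  · intro x hx hxU
    have h : (⟨x, hx⟩ : Y) ∈ Subtype.val ⁻¹' U := not_not.1 hxU
    rw [hUe] at h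
    exact congrArg Subtype.val (Set.mem_singleton_iff.1 (interior_subset h))

/-- countable irreducible with dense minimal subsystems is minimal -/
theorem ctb {A : Type} [Finite A] (Y : Set (ℤ → A)) (h0 : Y.Nonempty) (hc : Y.Countable)
    (h1 : Cl Y) (h2 : E8helper92.FS.Inv Y) (h3 : Irred Y) (h4 : DenseMin Y) : IsMin Y := by
  obtain ⟨z, hz, V, hV, hzV, hVz⟩ := isolated Y h0 hc h1
  have hinv : ∀ (k : ℤ) (x : ℤ → A), sh (-k) (sh k x) = x := fun k x => by
    rw [sh_sh, neg_add_cancel, sh_zero]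
  have hinv' : ∀ (k : ℤ) (x : ℤ → A), sh k (sh (-k) x) = x := fun k x => by
    rw [sh_sh, add_neg_cancel, sh_zero]
  let Y' : Set (ℤ → A) := Y ∩ ⋂ k : ℤ, (sh k) ⁻¹' V
  have hO : ∀ x ∈ Y, x ∉ Y' → ∃ k : ℤ, x = sh k z := by
    intro x hx hx'
    have h5 : ¬ ∀ k : ℤ, sh k x ∈ V := fun h => hx' ⟨hx, Set.mem_iInter.2 h⟩
    push Not at h5
    obtain ⟨k, hk⟩ := h5
    refine ⟨-k, ?_⟩
    rw [← hVz (sh k x) (h2 k x hx) hk, hinv]
  have hzY' : z ∉ Y' := by
    rintro ⟨-, h⟩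
    have := Set.mem_iInter.1 h 0
    rw [Set.mem_preimage, sh_zero] at this
    exact hzV this
  have hY'c : Cl Y' := by
    letI : TopologicalSpace A := ⊥
    have a1 : IsClosed Y := h1
    have a2 : IsClosed V := hV
    show IsClosed (Y ∩ ⋂ k : ℤ, (sh k) ⁻¹' V)
    exact a1.inter (isClosed_iInter fun k => a2.preimage (continuous_sh k))
  have hY'i : E8helper92.FS.Inv Y' := by
    rintro k x ⟨hx, hx'⟩
    refine ⟨h2 k x hx, Set.mem_iInter.2 fun j => ?_⟩
    rw [Set.mem_preimage, sh_sh]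
    exact Set.mem_iInter.1 hx' (j + k)
  have hex : ∃ M ⊆ Y, IsMin M ∧ ¬ M ⊆ Y' := by
    by_contra hcon
    push Not at hcon
    exact hzY' (h4 Y' hY'c hY'i hcon hz)
  obtain ⟨M, hMY, hM, hMY'⟩ := hex
  obtain ⟨x, hxM, hxY'⟩ := Set.not_subset.1 hMY'
  obtain ⟨k, rfl⟩ := hO x (hMY hxM) hxY'
  have hMO : ∀ j : ℤ, sh j z ∈ M := by
    intro j
    have := hM.1.2.2 (j + -k) _ hxM
    rwa [sh_sh, add_assoc, neg_add_cancel, add_zero] at this
  have hU : Y = M ∪ Y' := by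
    apply Set.Subset.antisymm
    · intro y hy
      by_cases hyY' : y ∈ Y'
      · exact Or.inr hyY'
      · obtain ⟨j, rfl⟩ := hO y hy hyY'
        exact Or.inl (hMO j)
    · exact Set.union_subset hMY Set.inter_subset_left
  rcases h3 M Y' hM.1.2.1 (fun k x hx => hM.1.2.2 k x hx) hY'c hY'i hU with h | h
  · rw [← h]
    exact hM
  · exact absurd (h.symm ▸ hz : z ∈ Y') hzY'

end Pool.Agent.E8helper33.FS
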